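import Pool.Agent.E8helper48.AZ.Ap2

/-!
# Apery's linear forms for `ζ(2)`: Beukers' double integral
-/

set_option autoImplicit false

namespace Pool.Agent.E8helper48.AZ

open MeasureTheory Filter Topology
open Pool.Agent.E8helper42.AZ Pool.Agent.E8helper51.AZ

/-- the beta integral -/
theorem beta_nat (a : ℝ) (p : ℕ) : ∀ n : ℕ, ∫ x in (0:ℝ)..a, x ^ p * (a - x) ^ n =
    a ^ (p + n + 1) * ((p.factorial : ℝ) * n.factorial / (p + n + 1).factorial) := by
  induction p with
  | zero =>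
    intro n
    have h1 : ∫ x in (0:ℝ)..a, x ^ 0 * (a - x) ^ n = ∫ x in (0:ℝ)..a, x ^ n := by
      simp only [pow_zero, one_mul]
      rw [intervalIntegral.integral_comp_sub_left (fun x => x ^ n) a]
      simp
    rw [h1, integral_pow]
    have h2 : ((0 + n + 1).factorial : ℝ) = (n + 1) * n.factorial := by
      rw [show 0 + n + 1 = n + 1 by ring, Nat.factorial_succ]; push_cast; ring
    have h3 : (n.factorial : ℝ) ≠ 0 := by positivity
    have h4 : (n : ℝ) + 1 ≠ 0 := by positivity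
    rw [h2]
    simp only [Nat.factorial_zero, Nat.cast_one, zero_add, zero_pow (Nat.succ_ne_zero n), sub_zero]
    field_simp
  | succ p ih =>
    intro n
    have hd : ∀ x ∈ Set.uIcc (0:ℝ) a, HasDerivAt (fun x : ℝ => x ^ (p + 1) * (a - x) ^ (n + 1))
        (((p : ℝ) + 1) * (x ^ p * (a - x) ^ (n + 1)) - ((n : ℝ) + 1) * (x ^ (p + 1) * (a - x) ^ n)) x := by
      intro x _
      have h1 : HasDerivAt (fun x : ℝ => x ^ (p + 1)) (((p : ℝ) + 1) * x ^ p) x := by
        have := hasDerivAt_pow (p + 1) x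
        simpa using this
      have h2 : HasDerivAt (fun x : ℝ => (a - x) ^ (n + 1)) (((n : ℝ) + 1) * (a - x) ^ n * (-1)) x := by
        have h3 : HasDerivAt (fun x : ℝ => a - x) (-1) x := by
          simpa using (hasDerivAt_id x).const_sub a
        have := h3.fun_pow (n + 1)
        simpa using this
      refine (h1.fun_mul h2).congr_deriv ?_
      ring
    have hi : IntervalIntegrable (fun x : ℝ =>
        ((p : ℝ) + 1) * (x ^ p * (a - x) ^ (n + 1)) - ((n : ℝ) + 1) * (x ^ (p + 1) * (a - x) ^ n))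
        volume 0 a := by
      apply Continuous.intervalIntegrable; fun_prop
    have h1 := intervalIntegral.integral_eq_sub_of_hasDerivAt hd hi
    have h2 : ∫ x in (0:ℝ)..a,
        ((p : ℝ) + 1) * (x ^ p * (a - x) ^ (n + 1)) - ((n : ℝ) + 1) * (x ^ (p + 1) * (a - x) ^ n) =
        ((p : ℝ) + 1) * (∫ x in (0:ℝ)..a, x ^ p * (a - x) ^ (n + 1)) -
          ((n : ℝ) + 1) * ∫ x in (0:ℝ)..a, x ^ (p + 1) * (a - x) ^ n := by
      rw [intervalIntegral.integral_sub, intervalIntegral.integral_const_mul,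
        intervalIntegral.integral_const_mul]
      · apply Continuous.intervalIntegrable; fun_prop
      · apply Continuous.intervalIntegrable; fun_prop
    rw [h2, ih (n + 1)] at h1
    simp only [sub_self, zero_pow (Nat.succ_ne_zero _), mul_zero, zero_mul] at h1
    have h5 : ((n + 1).factorial : ℝ) = (n + 1) * n.factorial := by rw [Nat.factorial_succ]; push_cast; ring
    have h6 : ((p + 1).factorial : ℝ) = (p + 1) * p.factorial := by rw [Nat.factorial_succ]; push_cast; ring
    have h7 : (n : ℝ) + 1 ≠ 0 := by positivity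
    rw [show p + (n + 1) + 1 = p + 1 + n + 1 by ring, h5] at h1
    rw [h6]
    have h8 : ((n : ℝ) + 1) * ∫ x in (0:ℝ)..a, x ^ (p + 1) * (a - x) ^ n =
        ((n : ℝ) + 1) * (a ^ (p + 1 + n + 1) * (((p : ℝ) + 1) * p.factorial * n.factorial / (p + 1 + n + 1).factorial)) := by
      linear_combination -h1
    exact mul_left_cancel₀ h7 h8

lemma beta1 (p n : ℕ) : ∫ x in Set.Ioo (0 : ℝ) 1, x ^ p * (1 - x) ^ n =
    (p.factorial : ℝ) * n.factorial / (p + n + 1).factorial := by
  rw [← integral_Ioc_eq_integral_Ioo, ← intervalIntegral.integral_of_le zero_le_one, beta_nat, one_pow, one_mul]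

/-- the terms -/
noncomputable def F (n k : ℕ) (p : ℝ × ℝ) : ℝ :=
  (((k + n).choose n : ℕ) : ℝ) * ((p.1 ^ (n + k) * (1 - p.1) ^ n) * (p.2 ^ (n + k) * (1 - p.2) ^ n))

/-- the open square -/
def Q : Set (ℝ × ℝ) := Set.Ioo 0 1 ×ˢ Set.Ioo 0 1

lemma Q_meas : MeasurableSet Q := measurableSet_Ioo.prod measurableSet_Ioo

lemma F_int (n k : ℕ) : IntegrableOn (F n k) Q := by
  have hc : Continuous (F n k) := by
    unfold F
    fun_prop
  have hK : IsCompact (Set.Icc (0 : ℝ) 1 ×ˢ Set.Icc (0 : ℝ) 1) := isCompact_Icc.prod isCompact_Icc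
  exact (hc.continuousOn.integrableOn_compact hK).mono_set
    (Set.prod_mono Set.Ioo_subset_Icc_self Set.Ioo_subset_Icc_self)

lemma F_integral (n k : ℕ) : ∫ p in Q, F n k p = (((k + n).choose n : ℕ) : ℝ) *
    (((n + k).factorial : ℝ) * n.factorial / (n + k + n + 1).factorial) ^ 2 := by
  unfold F Q
  rw [integral_const_mul, Measure.volume_eq_prod]
  rw [setIntegral_prod_mul (fun x : ℝ => x ^ (n + k) * (1 - x) ^ n) (fun y : ℝ => y ^ (n + k) * (1 - y) ^ n)]
  rw [beta1, pow_two]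

lemma F_hasSum (n : ℕ) {p : ℝ × ℝ} (hp : p ∈ Q) :
    HasSum (fun k => F n k p) (beu2 p.1 p.2 ^ n / (1 - p.1 * p.2)) := by
  obtain ⟨⟨h1, h2⟩, ⟨h3, h4⟩⟩ := hp
  have hr : ‖p.1 * p.2‖ < 1 := by
    rw [Real.norm_eq_abs, abs_of_pos (mul_pos h1 h3)]
    nlinarith
  have hr' : 1 - p.1 * p.2 ≠ 0 := by
    rw [Real.norm_eq_abs, abs_of_pos (mul_pos h1 h3)] at hr
    linarith
  have h := (hasSum_choose_mul_geometric_of_norm_lt_one n hr).mul_left ((p.1 * p.2 * (1 - p.1) * (1 - p.2)) ^ n)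
  have e1 : (p.1 * p.2 * (1 - p.1) * (1 - p.2)) ^ n * (1 / (1 - p.1 * p.2) ^ (n + 1)) =
      beu2 p.1 p.2 ^ n / (1 - p.1 * p.2) := by
    unfold beu2
    rw [div_pow, pow_succ, div_div, mul_one_div]
  rw [e1] at h
  have e2 : (fun k => F n k p) = fun i : ℕ => (p.1 * p.2 * (1 - p.1) * (1 - p.2)) ^ n *
      ((((i + n).choose n : ℕ) : ℝ) * (p.1 * p.2) ^ i) := by
    funext k
    unfold F
    rw [mul_pow, mul_pow, mul_pow, mul_pow, pow_add, pow_add]
    ring
  rw [e2]
  exact h

lemma term_eq (n k : ℕ) : (((k + n).choose n : ℕ) : ℝ) *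
    (((n + k).factorial : ℝ) * n.factorial / (n + k + n + 1).factorial) ^ 2 = R2 n (((k + n : ℕ) : ℝ) + 1) := by
  have hA : (k.factorial : ℝ) * ∏ j ∈ Finset.range n, ((((k + n : ℕ) : ℝ) + 1) - ((j : ℝ) + 1)) = (k + n).factorial := by
    have h := Nat.factorial_mul_descFactorial (show n ≤ k + n by omega)
    rw [Nat.descFactorial_eq_prod_range, Nat.add_sub_cancel] at h
    rw [← h]
    push_cast
    congr 1
    refine Finset.prod_congr rfl fun j hj => ?_
    rw [Finset.mem_range] at hj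
    rw [Nat.cast_sub (by omega)]
    push_cast
    ring
  have hB : ((k + n).factorial : ℝ) * ∏ j ∈ Finset.range (n + 1), ((((k + n : ℕ) : ℝ) + 1) + (j : ℝ)) =
      (n + k + n + 1).factorial := by
    have h := Nat.factorial_mul_ascFactorial (k + n) (n + 1)
    rw [Nat.ascFactorial_eq_prod_range] at h
    rw [show n + k + n + 1 = k + n + (n + 1) by ring, ← h]
    push_cast
    rfl
  have hC : (((k + n).choose n : ℕ) : ℝ) * n.factorial * k.factorial = (k + n).factorial := by
    have h := Nat.choose_mul_factorial_mul_factorial (show n ≤ k + n by omega)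
    rw [Nat.add_sub_cancel] at h
    exact_mod_cast h
  have hk : (k.factorial : ℝ) ≠ 0 := by positivity
  have hn : (n.factorial : ℝ) ≠ 0 := by positivity
  have hkn : ((k + n).factorial : ℝ) ≠ 0 := by positivity
  have hA' : ∏ j ∈ Finset.range n, ((((k + n : ℕ) : ℝ) + 1) - ((j : ℝ) + 1)) = (k + n).factorial / k.factorial := by
    rw [eq_div_iff hk, mul_comm, hA]
  have hC' : (((k + n).choose n : ℕ) : ℝ) = (k + n).factorial / (n.factorial * k.factorial) := by
    rw [eq_div_iff (mul_ne_zero hn hk), ← hC]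
    ring
  have hD : ((n + k + n + 1).factorial : ℝ) ≠ 0 := by positivity
  have hB' : ∏ j ∈ Finset.range (n + 1), ((((k + n : ℕ) : ℝ) + 1) + (j : ℝ)) =
      (n + k + n + 1).factorial / (k + n).factorial := by
    rw [eq_div_iff hkn, mul_comm, hB]
  unfold R2 rn sx
  rw [hA', hB', hC', show n + k = k + n by ring]
  rw [show n + k + n + 1 = k + n + n + 1 by ring] at hD
  field_simp

lemma R2_zero {n m : ℕ} (hm : m < n) : R2 n ((m : ℝ) + 1) = 0 := by
  unfold R2 rn
  rw [Finset.prod_eq_zero (Finset.mem_range.2 hm) (by ring), zero_div, zero_mul]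

lemma R2_tsum (n : ℕ) : ∑' k : ℕ, R2 n (((k + n : ℕ) : ℝ) + 1) = J2 n := by
  unfold J2
  rw [← (R2_summable n).sum_add_tsum_nat_add n, Finset.sum_eq_zero, zero_add]
  intro m hm
  exact R2_zero (Finset.mem_range.1 hm)

theorem Jn2_eq (n : ℕ) : Jn2 n = J2 n := by
  have hnn : ∀ k, ∫ p in Q, ‖F n k p‖ = ∫ p in Q, F n k p := by
    intro k
    refine setIntegral_congr_fun Q_meas fun p hp => ?_
    obtain ⟨⟨h1, h2⟩, ⟨h3, h4⟩⟩ := hp
    have h5 : 0 < 1 - p.1 := by linarith
    have h6 : 0 < 1 - p.2 := by linarith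
    simp only [Real.norm_eq_abs]
    refine abs_of_nonneg ?_
    unfold F
    positivity
  have hs : Summable fun k : ℕ => R2 n (((k + n : ℕ) : ℝ) + 1) :=
    (summable_nat_add_iff n).2 (R2_summable n)
  have h := integral_tsum_of_summable_integral_norm (μ := volume.restrict Q) (F := fun k => F n k)
    (fun k => F_int n k) (by
      refine hs.congr fun k => ?_
      rw [hnn, F_integral, term_eq])
  rw [← R2_tsum]
  have e1 : ∑' k : ℕ, ∫ p in Q, F n k p = ∑' k : ℕ, R2 n (((k + n : ℕ) : ℝ) + 1) :=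
    tsum_congr fun k => by rw [F_integral, term_eq]
  rw [← e1, h]
  unfold Jn2
  refine setIntegral_congr_fun Q_meas fun p hp => ?_
  exact (F_hasSum n hp).tsum_eq.symm

/-- **AP2** -/
theorem t_AP2 : S_AP2 := ⟨a2, b2, pair2, EF_a2, EF_b2, fun n => by rw [Jn2_eq, J2_ab]⟩

end Pool.Agent.E8helper48.AZ
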