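import Pool.Agent.E8helper42.AZ.Stm4
import Pool.Agent.E8helper51.AZ.P3
import Pool.Agent.H340R2.LW

/-!
# Apery's linear forms for `ζ(2)`: the series
-/

set_option autoImplicit false

namespace Pool.Agent.E8helper48.AZ

open Finset Pool.Agent.E8helper42.AZ Pool.Agent.E8helper51.AZ Filter Topology

/-- `n! / (x (x + 1) ⋯ (x + n))` -/
noncomputable def sx (n : ℕ) (x : ℝ) : ℝ := (n.factorial : ℝ) / ∏ j ∈ range (n + 1), (x + (j : ℝ))

/-- its coefficients -/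
def dd (n k : ℕ) : ℚ := (-1) ^ k * ((n.choose k : ℕ) : ℚ)

lemma prod_ne {n : ℕ} {x : ℝ} (hx : 0 < x) : ∏ j ∈ range n, (x + (j : ℝ)) ≠ 0 :=
  prod_ne_zero_iff.2 fun j _ => by positivity

lemma sx_succ (n : ℕ) {x : ℝ} (hx : 0 < x) : sx (n + 1) x = sx n x * ((n : ℝ) + 1) / (x + ((n : ℝ) + 1)) := by
  unfold sx
  rw [prod_range_succ _ (n + 1), Nat.factorial_succ]
  have h := prod_ne (n := n + 1) hx
  have h2 : x + ((n : ℝ) + 1) ≠ 0 := by positivity
  push_cast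
  field_simp

lemma prod_shift (n : ℕ) (x : ℝ) : x * ∏ j ∈ range n, (x + 1 + (j : ℝ)) =
    (∏ j ∈ range n, (x + (j : ℝ))) * (x + (n : ℝ)) := by
  rw [← prod_range_succ, prod_range_succ', mul_comm]
  congr 1
  · refine prod_congr rfl fun j _ => ?_
    push_cast
    ring
  · push_cast
    ring

lemma sx_shift (n : ℕ) {x : ℝ} (hx : 0 < x) : sx n (x + 1) = sx n x * x / (x + ((n : ℝ) + 1)) := by
  unfold sx
  have h := prod_ne (n := n + 1) hx
  have h1 := prod_shift (n + 1) x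
  have h2 : x + ((n : ℝ) + 1) ≠ 0 := by positivity
  have h3 := prod_ne (n := n + 1) (show 0 < x + 1 by linarith)
  push_cast at h1
  have h4 : ∏ j ∈ range (n + 1), (x + 1 + (j : ℝ)) =
      (∏ j ∈ range (n + 1), (x + (j : ℝ))) * (x + ((n : ℝ) + 1)) / x := by
    rw [eq_div_iff hx.ne', mul_comm, h1]
  rw [h4]
  field_simp

lemma sx_sub (n : ℕ) {x : ℝ} (hx : 0 < x) : sx (n + 1) x = sx n x - sx n (x + 1) := by
  rw [sx_succ n hx, sx_shift n hx]
  have h2 : x + ((n : ℝ) + 1) ≠ 0 := by positivity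
  field_simp
  ring

/-- partial fractions -/
lemma sx_pf (n : ℕ) : ∀ x : ℝ, 0 < x → sx n x = ∑ k ∈ range (n + 1), ((dd n k : ℚ) : ℝ) / (x + k) := by
  induction n with
  | zero =>
    intro x _
    simp [sx, dd]
  | succ n ih =>
    intro x hx
    rw [sx_sub n hx, ih x hx, ih (x + 1) (by linarith)]
    rw [sum_range_succ' (fun k => ((dd (n + 1) k : ℚ) : ℝ) / (x + k)) (n + 1)]
    have h1 : ∀ k ∈ range (n + 1), ((dd (n + 1) (k + 1) : ℚ) : ℝ) / (x + ((k + 1 : ℕ) : ℝ)) =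
        ((dd n (k + 1) : ℚ) : ℝ) / (x + ((k + 1 : ℕ) : ℝ)) - ((dd n k : ℚ) : ℝ) / (x + 1 + k) := by
      intro k _
      unfold dd
      rw [Nat.choose_succ_succ]
      push_cast
      rw [show x + ((k : ℝ) + 1) = x + 1 + k by ring, ← sub_div, pow_succ]
      congr 1
      ring
    rw [sum_congr rfl h1, sum_sub_distrib]
    have h2 := sum_range_succ' (fun k => ((dd n k : ℚ) : ℝ) / (x + k)) (n + 1)
    have h3 := sum_range_succ (fun k => ((dd n k : ℚ) : ℝ) / (x + k)) (n + 1)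
    have h4 : dd n (n + 1) = 0 := by
      unfold dd
      rw [Nat.choose_succ_self]
      simp
    have h5 : dd (n + 1) 0 = dd n 0 := by simp [dd]
    rw [h4] at h3
    rw [h5]
    simp only [Rat.cast_zero, zero_div, add_zero] at h3
    linarith

/-- the rational function -/
noncomputable def R2 (n : ℕ) (x : ℝ) : ℝ := rn n x * sx n x

lemma rn_shift (n : ℕ) {x : ℝ} (hx : 0 < x) :
    rn (n + 1) (x + 1) = rn n x * x ^ 2 / ((x + ((n : ℝ) + 1)) * (x + ((n : ℝ) + 2))) := by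
  unfold rn
  have e1 : ∏ j ∈ range (n + 1), (x + 1 - ((j : ℝ) + 1)) = x * ∏ j ∈ range n, (x - ((j : ℝ) + 1)) := by
    rw [prod_range_succ', mul_comm]
    congr 1
    · push_cast; ring
    · refine prod_congr rfl fun j _ => ?_
      push_cast
      ring
  have e3 := prod_ne (n := n + 1) hx
  have h1 := prod_shift (n + 2) x
  have e4 : ∏ j ∈ range (n + 1 + 1), (x + 1 + (j : ℝ)) =
      (∏ j ∈ range (n + 1), (x + (j : ℝ))) * (x + ((n : ℝ) + 1)) * (x + ((n : ℝ) + 2)) / x := by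
    rw [eq_div_iff hx.ne', mul_comm, h1, prod_range_succ _ (n + 1)]
    push_cast
    ring
  rw [e1, e4]
  have a1 : x + ((n : ℝ) + 1) ≠ 0 := by positivity
  have a2 : x + ((n : ℝ) + 2) ≠ 0 := by positivity
  field_simp

/-- the polynomial of the certificate -/
def qn (N x : ℝ) : ℝ := x ^ 2 - 3 * (2 * N + 1) * x - (11 * N ^ 2 + 9 * N + 2)

/-- creative telescoping -/
lemma tele2 (n : ℕ) {x : ℝ} (hx : 0 < x) :
    ((n : ℝ) + 2) ^ 2 * R2 (n + 2) x + (11 * ((n : ℝ) + 1) ^ 2 + 11 * ((n : ℝ) + 1) + 3) * R2 (n + 1) x -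
      ((n : ℝ) + 1) ^ 2 * R2 n x = qn ((n : ℝ) + 1) (x + 1) * R2 (n + 1) (x + 1) - qn ((n : ℝ) + 1) x * R2 (n + 1) x := by
  have h1 : rn (n + 1) x = rn n x * (x - ((n : ℝ) + 1)) / (x + ((n : ℝ) + 1)) := rn_succ n x
  have h2 : rn (n + 2) x = rn n x * (x - ((n : ℝ) + 1)) * (x - ((n : ℝ) + 2)) / ((x + ((n : ℝ) + 1)) * (x + ((n : ℝ) + 2))) := by
    rw [show n + 2 = (n + 1) + 1 by ring, rn_succ, h1]
    push_cast
    rw [show (n : ℝ) + 1 + 1 = n + 2 by ring, div_mul_eq_mul_div, div_div]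
  have h3 := rn_shift n hx
  have k1 := sx_succ n hx
  have k2 : sx (n + 2) x = sx n x * ((n : ℝ) + 1) * ((n : ℝ) + 2) / ((x + ((n : ℝ) + 1)) * (x + ((n : ℝ) + 2))) := by
    rw [show n + 2 = (n + 1) + 1 by ring, sx_succ _ hx, k1]
    push_cast
    rw [show (n : ℝ) + 1 + 1 = n + 2 by ring, div_mul_eq_mul_div, div_div]
  have k3 : sx (n + 1) (x + 1) = sx n x * ((n : ℝ) + 1) * x / ((x + ((n : ℝ) + 1)) * (x + ((n : ℝ) + 2))) := by
    rw [sx_shift _ hx, k1]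
    push_cast
    rw [show (n : ℝ) + 1 + 1 = n + 2 by ring, div_mul_eq_mul_div, div_div]
  unfold R2 qn
  rw [h1, h2, h3, k1, k2, k3]
  have a1 : x + ((n : ℝ) + 1) ≠ 0 := by positivity
  have a2 : x + ((n : ℝ) + 2) ≠ 0 := by positivity
  field_simp
  ring

lemma sx_pos (n : ℕ) {x : ℝ} (hx : 0 < x) : 0 < sx n x := by
  unfold sx
  exact div_pos (by positivity) (prod_pos fun j _ => by positivity)

lemma sx_le (n : ℕ) {x : ℝ} (hx : 1 ≤ x) : sx n x ≤ (n.factorial : ℝ) / x := by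
  have hx0 : 0 < x := by linarith
  induction n with
  | zero => simp [sx]
  | succ n ih =>
    have hp := sx_pos n hx0
    rw [sx_succ n hx0, Nat.factorial_succ]
    push_cast
    have h1 : (1 : ℝ) ≤ x + ((n : ℝ) + 1) := by
      have : (0 : ℝ) ≤ (n : ℝ) := by positivity
      linarith
    refine (div_le_self (by positivity) h1).trans ?_
    calc sx n x * ((n : ℝ) + 1) ≤ (n.factorial : ℝ) / x * ((n : ℝ) + 1) := by gcongr
      _ = _ := by ring

lemma sx_le' (n : ℕ) {x : ℝ} (hx : 1 ≤ x) : sx (n + 1) x ≤ ((n + 1).factorial : ℝ) / x ^ 2 := by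
  have hx0 : 0 < x := by linarith
  have hp := sx_pos n hx0
  have h1 := sx_le n hx
  rw [sx_succ n hx0, Nat.factorial_succ]
  push_cast
  have h2 : x ≤ x + ((n : ℝ) + 1) := by
    have : (0 : ℝ) ≤ (n : ℝ) := by positivity
    linarith
  calc sx n x * ((n : ℝ) + 1) / (x + ((n : ℝ) + 1)) ≤ sx n x * ((n : ℝ) + 1) / x := by gcongr
    _ ≤ (n.factorial : ℝ) / x * ((n : ℝ) + 1) / x := by gcongr
    _ = _ := by
      field_simp

lemma R2_bound (n : ℕ) : ∃ K : ℝ, 0 ≤ K ∧ ∀ x : ℝ, 1 ≤ x → |R2 n x| ≤ K / x ^ 2 := by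
  obtain ⟨K, hK, h⟩ := fs_bound n
  refine ⟨K * n.factorial, by positivity, fun x hx => ?_⟩
  have hx0 : 0 < x := by linarith
  rw [R2, rn_fs n hx0, abs_mul, abs_of_pos (sx_pos n hx0)]
  calc |fs n x| * sx n x ≤ K / x * ((n.factorial : ℝ) / x) :=
        mul_le_mul (h x hx).1 (sx_le n hx) (sx_pos n hx0).le (by positivity)
    _ = _ := by
      field_simp

lemma R2_bound' (n : ℕ) : ∃ K : ℝ, 0 ≤ K ∧ ∀ x : ℝ, 1 ≤ x → |R2 (n + 1) x| ≤ K / x ^ 3 := by
  obtain ⟨K, hK, h⟩ := fs_bound (n + 1)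
  refine ⟨K * (n + 1).factorial, by positivity, fun x hx => ?_⟩
  have hx0 : 0 < x := by linarith
  rw [R2, rn_fs _ hx0, abs_mul, abs_of_pos (sx_pos _ hx0)]
  calc |fs (n + 1) x| * sx (n + 1) x ≤ K / x * (((n + 1).factorial : ℝ) / x ^ 2) :=
        mul_le_mul (h x hx).1 (sx_le' n hx) (sx_pos _ hx0).le (by positivity)
    _ = _ := by
      field_simp

lemma R2_summable (n : ℕ) : Summable fun m : ℕ => R2 n ((m : ℝ) + 1) := by
  obtain ⟨K, hK, h⟩ := R2_bound n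
  refine Summable.of_norm_bounded (g := fun m : ℕ => K * (1 / ((m : ℝ) + 1) ^ 2)) ((summable_inv 2 le_rfl).mul_left K)
    fun m => ?_
  rw [Real.norm_eq_abs, mul_one_div]
  exact h _ (by linarith [show (0 : ℝ) ≤ (m : ℝ) by positivity])

/-- the linear forms -/
noncomputable def J2 (n : ℕ) : ℝ := ∑' m : ℕ, R2 n ((m : ℝ) + 1)

lemma S2_tendsto (n : ℕ) :
    Tendsto (fun m : ℕ => qn ((n : ℝ) + 1) ((m : ℝ) + 1) * R2 (n + 1) ((m : ℝ) + 1)) atTop (𝓝 0) := by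
  obtain ⟨K, hK, h⟩ := R2_bound' n
  set D : ℝ := 1 + 3 * (2 * ((n : ℝ) + 1) + 1) + (11 * ((n : ℝ) + 1) ^ 2 + 9 * ((n : ℝ) + 1) + 2) with hD
  have hD0 : 0 ≤ D := by positivity
  have hb : ∀ x : ℝ, 1 ≤ x → |qn ((n : ℝ) + 1) x| ≤ D * x ^ 2 := by
    intro x hx
    have hx2 : x ≤ x ^ 2 := by nlinarith
    have hx3 : 1 ≤ x ^ 2 := by nlinarith
    set u : ℝ := 3 * (2 * ((n : ℝ) + 1) + 1) with hu
    set v : ℝ := 11 * ((n : ℝ) + 1) ^ 2 + 9 * ((n : ℝ) + 1) + 2 with hv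
    have hu0 : 0 ≤ u := by positivity
    have hv0 : 0 ≤ v := by positivity
    have e : qn ((n : ℝ) + 1) x = x ^ 2 - u * x - v := by
      unfold qn
      ring
    rw [e, hD, abs_le]
    have f1 := mul_le_mul_of_nonneg_left hx2 hu0
    have f2 := mul_le_mul_of_nonneg_left hx3 hv0
    have f3 : 0 ≤ u * x := by positivity
    constructor
    · nlinarith
    · nlinarith
  have hle : ∀ m : ℕ, |qn ((n : ℝ) + 1) ((m : ℝ) + 1) * R2 (n + 1) ((m : ℝ) + 1)| ≤ (D * K) * (1 / ((m : ℝ) + 1)) := by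
    intro m
    set x : ℝ := (m : ℝ) + 1 with hx
    have hx1 : 1 ≤ x := by rw [hx]; linarith [show (0 : ℝ) ≤ (m : ℝ) by positivity]
    have hx0 : 0 < x := by linarith
    rw [abs_mul]
    calc |qn ((n : ℝ) + 1) x| * |R2 (n + 1) x| ≤ D * x ^ 2 * (K / x ^ 3) :=
          mul_le_mul (hb x hx1) (h x hx1) (abs_nonneg _) (by positivity)
      _ = (D * K) * (1 / x) := by
          field_simp
  refine squeeze_zero_norm (a := fun m : ℕ => (D * K) * (1 / ((m : ℝ) + 1))) (fun m => ?_) ?_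
  · rw [Real.norm_eq_abs]
    exact hle m
  · have := (tendsto_one_div_add_atTop_nhds_zero_nat (𝕜 := ℝ)).const_mul (D * K)
    rwa [mul_zero] at this

/-- the recurrence for `J2` -/
theorem J2_rec (n : ℕ) : ((n : ℝ) + 2) ^ 2 * J2 (n + 2) +
    (11 * ((n : ℝ) + 1) ^ 2 + 11 * ((n : ℝ) + 1) + 3) * J2 (n + 1) - ((n : ℝ) + 1) ^ 2 * J2 n = 0 := by
  have hs : HasSum (fun m : ℕ => ((n : ℝ) + 2) ^ 2 * R2 (n + 2) ((m : ℝ) + 1) +
      (11 * ((n : ℝ) + 1) ^ 2 + 11 * ((n : ℝ) + 1) + 3) * R2 (n + 1) ((m : ℝ) + 1) -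
      ((n : ℝ) + 1) ^ 2 * R2 n ((m : ℝ) + 1))
      (((n : ℝ) + 2) ^ 2 * J2 (n + 2) + (11 * ((n : ℝ) + 1) ^ 2 + 11 * ((n : ℝ) + 1) + 3) * J2 (n + 1) -
        ((n : ℝ) + 1) ^ 2 * J2 n) :=
    (((R2_summable (n + 2)).hasSum.mul_left _).add ((R2_summable (n + 1)).hasSum.mul_left _)).sub
      ((R2_summable n).hasSum.mul_left _)
  have h1 := hs.tendsto_sum_nat
  have h0 : R2 (n + 1) 1 = 0 := by rw [R2, rn_one, zero_mul]
  have h2 : ∀ M : ℕ, ∑ m ∈ range M, (((n : ℝ) + 2) ^ 2 * R2 (n + 2) ((m : ℝ) + 1) +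
      (11 * ((n : ℝ) + 1) ^ 2 + 11 * ((n : ℝ) + 1) + 3) * R2 (n + 1) ((m : ℝ) + 1) -
      ((n : ℝ) + 1) ^ 2 * R2 n ((m : ℝ) + 1)) = qn ((n : ℝ) + 1) ((M : ℝ) + 1) * R2 (n + 1) ((M : ℝ) + 1) := by
    intro M
    induction M with
    | zero => simp [h0]
    | succ M ih =>
      rw [sum_range_succ, ih, tele2 n (show (0 : ℝ) < (M : ℝ) + 1 by positivity)]
      push_cast
      ring
  have h3 := h1.congr fun M => h2 M
  exact tendsto_nhds_unique h3 (S2_tendsto n)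

/-! ### the coefficients -/

/-- the weights -/
def w2 (k l : ℕ) : ℚ := if k = l then H 2 k else (H 1 l - H 1 k) / ((k : ℚ) - l)

/-- `a_n` -/
def a2 (n : ℕ) : ℚ := ∑ k ∈ range (n + 1), cc n k * dd n k

/-- `b_n` -/
def b2 (n : ℕ) : ℚ := ∑ k ∈ range (n + 1), ∑ l ∈ range (n + 1), cc n k * dd n l * w2 k l

lemma hasSum_tel (k : ℕ) : HasSum (fun m : ℕ => 1 / ((m : ℝ) + 1) - 1 / ((m : ℝ) + 1 + k)) ((H 1 k : ℚ) : ℝ) := by
  induction k with
  | zero =>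
    simp [H, hasSum_zero]
  | succ k ih =>
    have h1 : HasSum (fun m : ℕ => 1 / ((m : ℝ) + 1 + k) - 1 / ((m : ℝ) + 1 + ((k : ℝ) + 1))) (1 / ((k : ℝ) + 1)) := by
      rw [hasSum_iff_tendsto_nat_of_nonneg]
      · have e : ∀ M : ℕ, ∑ m ∈ range M, (1 / ((m : ℝ) + 1 + k) - 1 / ((m : ℝ) + 1 + ((k : ℝ) + 1))) =
            1 / ((k : ℝ) + 1) - 1 / ((M : ℝ) + 1 + k) := by
          intro M
          induction M with
          | zero => simp [add_comm]
          | succ M ihM =>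
            rw [sum_range_succ, ihM]
            push_cast
            rw [show (M : ℝ) + 1 + ((k : ℝ) + 1) = (M : ℝ) + 1 + 1 + k by ring]
            ring
        simp only [e]
        have t : Tendsto (fun M : ℕ => 1 / ((M : ℝ) + 1 + k)) atTop (𝓝 0) := by
          have := (tendsto_one_div_add_atTop_nhds_zero_nat (𝕜 := ℝ)).comp (tendsto_add_atTop_nat k)
          refine this.congr fun M => ?_
          simp only [Function.comp]
          push_cast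
          congr 1
          ring
        have := t.const_sub (1 / ((k : ℝ) + 1))
        rwa [sub_zero] at this
      · intro m
        have : 1 / ((m : ℝ) + 1 + ((k : ℝ) + 1)) ≤ 1 / ((m : ℝ) + 1 + k) := by
          apply one_div_le_one_div_of_le
          · positivity
          · linarith
        linarith
    have h2 := ih.add h1
    have e1 : ((H 1 (k + 1) : ℚ) : ℝ) = ((H 1 k : ℚ) : ℝ) + 1 / ((k : ℝ) + 1) := by
      unfold H
      rw [sum_range_succ]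
      push_cast
      rw [pow_one]
    have e2 : (fun m : ℕ => 1 / ((m : ℝ) + 1) - 1 / ((m : ℝ) + 1 + ((k + 1 : ℕ) : ℝ))) =
        fun m : ℕ => (1 / ((m : ℝ) + 1) - 1 / ((m : ℝ) + 1 + k)) +
          (1 / ((m : ℝ) + 1 + k) - 1 / ((m : ℝ) + 1 + ((k : ℝ) + 1))) := by
      funext m
      push_cast
      ring
    rw [e1, e2]
    exact h2

lemma zeta_two : ∑' m : ℕ, 1 / ((m : ℝ) + 1) ^ 2 = Real.pi ^ 2 / 6 := by
  have h := hasSum_zeta_two
  rw [← hasSum_nat_add_iff' 1] at h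
  simp only [range_one, sum_singleton, Nat.cast_zero, ne_eq, OfNat.ofNat_ne_zero, not_false_eq_true, zero_pow,
    div_zero, sub_zero, Nat.cast_add, Nat.cast_one] at h
  exact h.tsum_eq

lemma G2_sum (k l : ℕ) : HasSum (fun m : ℕ => 1 / (((m : ℝ) + 1 + k) * ((m : ℝ) + 1 + l)))
    ((if k = l then Real.pi ^ 2 / 6 else 0) - ((w2 k l : ℚ) : ℝ)) := by
  by_cases h : k = l
  · subst h
    have h1 := hasSum_shift 2 k le_rfl
    rw [zeta_two] at h1
    unfold w2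
    simp only [if_true]
    simpa only [pow_two] using h1
  · have h0 : ((l : ℝ) - k) ≠ 0 := by
      intro e
      apply h
      have : (l : ℝ) = k := by linarith
      exact_mod_cast this.symm
    have h0' : ((k : ℝ) - l) ≠ 0 := by
      intro e
      apply h0
      linarith
    have h1 := ((hasSum_tel l).sub (hasSum_tel k)).mul_left (1 / ((l : ℝ) - k))
    unfold w2
    simp only [if_neg h]
    have h2 : (fun m : ℕ => 1 / (((m : ℝ) + 1 + k) * ((m : ℝ) + 1 + l))) =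
        fun m : ℕ => 1 / ((l : ℝ) - k) * ((1 / ((m : ℝ) + 1) - 1 / ((m : ℝ) + 1 + l)) -
          (1 / ((m : ℝ) + 1) - 1 / ((m : ℝ) + 1 + k))) := by
      funext m
      have a1 : (m : ℝ) + 1 + k ≠ 0 := by positivity
      have a2 : (m : ℝ) + 1 + l ≠ 0 := by positivity
      have a3 : (m : ℝ) + 1 ≠ 0 := by positivity
      field_simp
      ring
    rw [h2]
    have e : (0 : ℝ) - (((H 1 l - H 1 k) / ((k : ℚ) - l) : ℚ) : ℝ) =
        1 / ((l : ℝ) - k) * (((H 1 l : ℚ) : ℝ) - ((H 1 k : ℚ) : ℝ)) := by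
      push_cast
      rw [show (l : ℝ) - k = -((k : ℝ) - l) by ring]
      field_simp
      ring
    rw [e]
    exact h1

lemma R2_double (n : ℕ) {x : ℝ} (hx : 0 < x) : R2 n x =
    ∑ k ∈ range (n + 1), ∑ l ∈ range (n + 1), (((cc n k : ℚ) : ℝ) * ((dd n l : ℚ) : ℝ)) * (1 / ((x + k) * (x + l))) := by
  rw [R2, rn_fs n hx, sx_pf n x hx, fs, sum_mul_sum]
  refine sum_congr rfl fun k _ => sum_congr rfl fun l _ => ?_
  rw [div_mul_div_comm, mul_one_div]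

theorem J2_ab (n : ℕ) : J2 n = ((a2 n : ℚ) : ℝ) * (Real.pi ^ 2 / 6) - ((b2 n : ℚ) : ℝ) := by
  have h1 : HasSum (fun m : ℕ => ∑ k ∈ range (n + 1), ∑ l ∈ range (n + 1),
      (((cc n k : ℚ) : ℝ) * ((dd n l : ℚ) : ℝ)) * (1 / (((m : ℝ) + 1 + k) * ((m : ℝ) + 1 + l))))
      (∑ k ∈ range (n + 1), ∑ l ∈ range (n + 1), (((cc n k : ℚ) : ℝ) * ((dd n l : ℚ) : ℝ)) *
        ((if k = l then Real.pi ^ 2 / 6 else 0) - ((w2 k l : ℚ) : ℝ))) :=
    hasSum_sum fun k _ => hasSum_sum fun l _ => (G2_sum k l).mul_left _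
  have h2 : (∑ k ∈ range (n + 1), ∑ l ∈ range (n + 1), (((cc n k : ℚ) : ℝ) * ((dd n l : ℚ) : ℝ)) *
        ((if k = l then Real.pi ^ 2 / 6 else 0) - ((w2 k l : ℚ) : ℝ))) =
        ((a2 n : ℚ) : ℝ) * (Real.pi ^ 2 / 6) - ((b2 n : ℚ) : ℝ) := by
    have e1 : ∀ k ∈ range (n + 1), ∑ l ∈ range (n + 1), ((cc n k : ℚ) : ℝ) * ((dd n l : ℚ) : ℝ) *
        ((if k = l then Real.pi ^ 2 / 6 else 0) - ((w2 k l : ℚ) : ℝ)) =
          ((cc n k : ℚ) : ℝ) * ((dd n k : ℚ) : ℝ) * (Real.pi ^ 2 / 6) -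
          ∑ l ∈ range (n + 1), ((cc n k : ℚ) : ℝ) * ((dd n l : ℚ) : ℝ) * ((w2 k l : ℚ) : ℝ) := by
      intro k hk
      simp only [mul_sub, sum_sub_distrib, mul_ite, mul_zero, sum_ite_eq, if_pos hk]
    rw [sum_congr rfl e1, sum_sub_distrib, ← sum_mul]
    unfold a2 b2
    push_cast
    ring
  have h3 : (fun m : ℕ => ∑ k ∈ range (n + 1), ∑ l ∈ range (n + 1),
      (((cc n k : ℚ) : ℝ) * ((dd n l : ℚ) : ℝ)) * (1 / (((m : ℝ) + 1 + k) * ((m : ℝ) + 1 + l)))) =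
      fun m : ℕ => R2 n ((m : ℝ) + 1) := by
    funext m
    rw [R2_double n (show (0 : ℝ) < (m : ℝ) + 1 by positivity)]
  rw [h3, h2] at h1
  exact h1.tsum_eq

lemma zeta_two_irr {A B : ℚ} (h : (A : ℝ) * (Real.pi ^ 2 / 6) = (B : ℝ)) : A = 0 ∧ B = 0 := by
  by_cases hA : A = 0
  · subst hA
    refine ⟨rfl, ?_⟩
    rw [Rat.cast_zero, zero_mul] at h
    exact_mod_cast h.symm
  · exfalso
    have hA' : (A : ℝ) ≠ 0 := by exact_mod_cast hA
    have h2 : Real.pi ^ 2 = ((6 * B / A : ℚ) : ℝ) := by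
      push_cast
      field_simp
      linear_combination 6 * h
    have h3 : IsAlgebraic ℚ (Real.pi ^ 2) := by
      rw [h2]
      exact isAlgebraic_algebraMap (R := ℚ) (A := ℝ) (6 * B / A)
    exact Pool.Agent.H340R2.LW.transcendental_pi (IsAlgebraic.of_pow (by norm_num) h3)

lemma recs (n : ℕ) : ((n : ℚ) + 2) ^ 2 * a2 (n + 2) + (11 * ((n : ℚ) + 1) ^ 2 + 11 * ((n : ℚ) + 1) + 3) * a2 (n + 1) -
      ((n : ℚ) + 1) ^ 2 * a2 n = 0 ∧
    ((n : ℚ) + 2) ^ 2 * b2 (n + 2) + (11 * ((n : ℚ) + 1) ^ 2 + 11 * ((n : ℚ) + 1) + 3) * b2 (n + 1) -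
      ((n : ℚ) + 1) ^ 2 * b2 n = 0 := by
  have h := J2_rec n
  rw [J2_ab, J2_ab, J2_ab] at h
  apply zeta_two_irr
  push_cast
  linear_combination h

lemma a2_0 : a2 0 = 1 := by simp [a2, cc, dd]

lemma a2_1 : a2 1 = -3 := by
  rw [a2, sum_range_succ, sum_range_succ, sum_range_zero]
  norm_num [cc, dd]

lemma b2_0 : b2 0 = 0 := by simp [b2, w2, H]

lemma b2_1 : b2 1 = -5 := by
  simp only [b2, sum_range_succ, sum_range_zero, w2, H]
  norm_num [cc, dd]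

lemma pair2 : AperyPair2 a2 b2 := ⟨a2_0, a2_1, b2_0, b2_1, fun n => (recs n).1, fun n => (recs n).2⟩

lemma dd_int (n k : ℕ) : ∃ z : ℤ, dd n k = z := by
  refine ⟨(-1) ^ k * ((n.choose k : ℕ) : ℤ), ?_⟩
  unfold dd
  push_cast
  ring

lemma dd_abs (n k : ℕ) : |((dd n k : ℚ) : ℝ)| ≤ 2 ^ n := by
  unfold dd
  push_cast
  rw [abs_mul, abs_pow, abs_neg, abs_one, one_pow, one_mul, Nat.abs_cast]
  exact_mod_cast Nat.choose_le_two_pow n k

lemma w2_abs {n k l : ℕ} (hk : k ≤ n) (hl : l ≤ n) : |((w2 k l : ℚ) : ℝ)| ≤ 2 * ((n : ℝ) + 1) := by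
  have hk' : (k : ℚ) ≤ n := by exact_mod_cast hk
  have hl' : (l : ℚ) ≤ n := by exact_mod_cast hl
  have h : |w2 k l| ≤ 2 * ((n : ℚ) + 1) := by
    unfold w2
    split_ifs with h
    · obtain ⟨h1, h2⟩ := H_le 2 k
      rw [abs_le]
      constructor <;> linarith
    · obtain ⟨h1, h2⟩ := H_le 1 k
      obtain ⟨h3, h4⟩ := H_le 1 l
      rw [abs_div]
      have h5 : (1 : ℚ) ≤ |(k : ℚ) - l| := by
        have : (1 : ℤ) ≤ |(k : ℤ) - l| := Int.one_le_abs (by omega)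
        exact_mod_cast this
      refine (div_le_self (abs_nonneg _) h5).trans ?_
      rw [abs_le]
      constructor <;> linarith
  exact_mod_cast h

lemma a2_abs (n : ℕ) : |((a2 n : ℚ) : ℝ)| ≤ 128 ^ n := by
  unfold a2
  push_cast
  refine (abs_sum_le_sum_abs _ _).trans ?_
  calc ∑ k ∈ range (n + 1), |((cc n k : ℚ) : ℝ) * ((dd n k : ℚ) : ℝ)| ≤ ∑ k ∈ range (n + 1), ((8 : ℝ) ^ n * 2 ^ n) := by
        refine sum_le_sum fun k hk => ?_
        rw [mem_range] at hk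
        rw [abs_mul]
        exact mul_le_mul (cc_abs (by omega)) (dd_abs n k) (abs_nonneg _) (by positivity)
    _ = ((n : ℝ) + 1) * (8 ^ n * 2 ^ n) := by
        rw [sum_const, card_range, nsmul_eq_mul]
        push_cast
        ring
    _ ≤ 2 ^ n * (8 ^ n * 2 ^ n) := by
        gcongr
        exact lin_le n
    _ = 32 ^ n := by rw [← mul_pow, ← mul_pow]; norm_num
    _ ≤ 128 ^ n := pow_le_pow_left₀ (by norm_num) (by norm_num) n

lemma b2_abs (n : ℕ) : |((b2 n : ℚ) : ℝ)| ≤ 2 * 128 ^ n := by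
  unfold b2
  push_cast
  have h : |∑ k ∈ range (n + 1), ∑ l ∈ range (n + 1), ((cc n k : ℚ) : ℝ) * ((dd n l : ℚ) : ℝ) * ((w2 k l : ℚ) : ℝ)| ≤
      ∑ k ∈ range (n + 1), ∑ l ∈ range (n + 1), (8 : ℝ) ^ n * 2 ^ n * (2 * ((n : ℝ) + 1)) := by
    refine (abs_sum_le_sum_abs _ _).trans (sum_le_sum fun k hk => ?_)
    refine (abs_sum_le_sum_abs _ _).trans (sum_le_sum fun l hl => ?_)
    rw [mem_range] at hk hl
    rw [abs_mul, abs_mul]
    have e1 := cc_abs (show k ≤ n by omega)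
    have e2 := dd_abs n l
    have e3 := w2_abs (show k ≤ n by omega) (show l ≤ n by omega)
    gcongr
  refine h.trans ?_
  calc ∑ k ∈ range (n + 1), ∑ l ∈ range (n + 1), (8 : ℝ) ^ n * 2 ^ n * (2 * ((n : ℝ) + 1))
      = 2 * (((n : ℝ) + 1) * ((n : ℝ) + 1) * ((n : ℝ) + 1) * (8 ^ n * 2 ^ n)) := by
        simp only [sum_const, card_range, nsmul_eq_mul]
        push_cast
        ring
    _ ≤ 2 * (2 ^ n * 2 ^ n * 2 ^ n * (8 ^ n * 2 ^ n)) := by
        have := lin_le n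
        gcongr
    _ = 2 * 128 ^ n := by
        rw [← mul_pow, ← mul_pow, ← mul_pow, ← mul_pow]
        norm_num

lemma IsI_w2 {m k l : ℕ} (hk : k ≤ m) (hl : l ≤ m) : IsI ((Nat.lcmUpto m : ℚ) ^ 2 * w2 k l) := by
  unfold w2
  split_ifs with h
  · exact IsI_H 2 hk
  · have e : (Nat.lcmUpto m : ℚ) ^ 2 * ((H 1 l - H 1 k) / ((k : ℚ) - l)) =
        ((Nat.lcmUpto m : ℚ) / ((k : ℚ) - l)) * ((Nat.lcmUpto m : ℚ) ^ 1 * H 1 l - (Nat.lcmUpto m : ℚ) ^ 1 * H 1 k) := by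
      ring
    rw [e]
    refine IsI.mul ?_ ((IsI_H 1 hl).sub (IsI_H 1 hk))
    rcases lt_or_gt_of_ne h with h | h
    · have h1 := (IsI_div (m := m) (show 1 ≤ l - k by omega) (show l - k ≤ m by omega)).neg
      rw [Nat.cast_sub h.le] at h1
      rwa [show (Nat.lcmUpto m : ℚ) / ((k : ℚ) - l) = -((Nat.lcmUpto m : ℚ) / ((l : ℚ) - k)) by
        rw [← neg_sub (l : ℚ) (k : ℚ), div_neg]]
    · have h1 := IsI_div (m := m) (show 1 ≤ k - l by omega) (show k - l ≤ m by omega)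
      rwa [Nat.cast_sub (le_of_lt h)] at h1

lemma EF_a2 : EFc a2 := by
  refine ⟨128, by norm_num, fun m => ?_, fun m => ⟨1, one_pos, ?_, fun j _ => ?_⟩⟩
  · exact (a2_abs m).trans (pow_le_pow_right₀ (by norm_num) (by omega))
  · rw [Nat.cast_one]
    exact one_le_pow₀ (by norm_num)
  · rw [Nat.cast_one, one_mul]
    change IsI _
    exact IsI.sum _ _ fun k _ => IsI.mul (cc_int j k) (dd_int j k)

lemma EF_b2 : EFc b2 := by
  refine ⟨2 ^ 16, by norm_num, fun m => ?_, fun m => ⟨Nat.lcmUpto m ^ 2, ?_, ?_, fun j hj => ?_⟩⟩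
  · calc |((b2 m : ℚ) : ℝ)| ≤ 2 * 128 ^ m := b2_abs m
      _ ≤ 2 ^ 16 * (2 ^ 16) ^ m := by
        refine mul_le_mul (by norm_num) (pow_le_pow_left₀ (by norm_num) (by norm_num) m) (by positivity) (by norm_num)
      _ = (2 ^ 16) ^ (m + 1) := by rw [pow_succ]; ring
  · exact pow_pos (Nat.lcmUpto_pos m) _
  · push_cast
    have h2 : (Nat.lcmUpto m : ℝ) ^ 2 ≤ ((2 ^ 8 : ℝ) ^ m) ^ 2 :=
      pow_le_pow_left₀ (by positivity) (lcm_bound m) 2
    have h3 : ((2 ^ 8 : ℝ) ^ m) ^ 2 = (2 ^ 16) ^ m := by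
      rw [← pow_mul, mul_comm m 2, pow_mul]
      norm_num
    rw [h3] at h2
    exact h2.trans (pow_le_pow_right₀ (by norm_num) (by omega))
  · have e : ((Nat.lcmUpto m ^ 2 : ℕ) : ℚ) * b2 j = ∑ k ∈ range (j + 1), ∑ l ∈ range (j + 1),
        cc j k * dd j l * ((Nat.lcmUpto m : ℚ) ^ 2 * w2 k l) := by
      unfold b2
      push_cast
      rw [mul_sum]
      refine sum_congr rfl fun k _ => ?_
      rw [mul_sum]
      refine sum_congr rfl fun l _ => ?_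
      ring
    change IsI _
    rw [e]
    refine IsI.sum _ _ fun k hk => IsI.sum _ _ fun l hl => ?_
    rw [mem_range] at hk hl
    exact (IsI.mul (cc_int j k) (dd_int j l)).mul (IsI_w2 (by omega) (by omega))

end Pool.Agent.E8helper48.AZ
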